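import Pool.Agent.H333R3.DG.Final

set_option autoImplicit false

/-!
# The rank of the abelianisation of a diagram group is not computable

The definitions (finite semigroup presentations, the Squier square complex `S(P)`, the diagram
group `D(P, w) = π₁(S(P), w)` and the rank of its abelianisation) are in
`Pool.Agent.H333R3.DG.Defs`.

Idea: a Turing machine with undecidable halting problem is written as a semigroup presentation in
which every relation contains exactly one head letter, so that the component of a machine word is a
graph. If the machine does not halt, this component is the graph of a partial function and its
fundamental group is cyclic; if it halts, the component contains two independent triangles, so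
that the rank is at least two.
-/

namespace Pool.Agent.Results.MP_a5725c_al.RankUncomputable

open Pool.Agent.H333R3.DG

/-- There is a (fixed) finite semigroup presentation `P` such that every partial recursive
function `f`, taking a presentation and a word as input and giving an element of
`{0, 1, 2, …} ∪ {∞}` as output, fails on `(P, w)` for some baseword `w` over the alphabet of `P`:
either it does not halt or its output is not the rank of the abelianisation of the diagram group
`D(P, w)`. -/
theorem result : ∃ P : Pres, Proper P ∧ ∀ f : Pres × List ℕ →. Option ℕ, Partrec f →
    ∃ w : Vertex P, abRank P w ∉ f (P, w.word) :=
  final

end Pool.Agent.Results.MP_a5725c_al.RankUncomputable
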